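import Pool.Agent.TH896.Z3R.Fin

/-!
# Rational approximations to `ζ(3)` with restricted denominators

The Hankel determinants of `ZetaThreeExponentC` (linear forms in `1, ζ(3)` with `ζ(3)` replaced by `p/q`), when
the denominator `q` is divisible by many small primes: each prime `ℓ ≤ 4n` (or `≤ 9n/2`) with `ℓ ^ a ∣ q`, `a ≤ 3`,
gives a gain `ℓ ^ (-a)` in every row of the determinant.
-/

set_option autoImplicit false

namespace Pool.Agent.Results.MP_48b3e2_nt.DivisibleDenominators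

/-- **Restricted rational approximation to `ζ(3) = ∑ 1/(n+1)^3`.** `primorial y` is the product of the primes
`≤ y`. There is `c > 0` with
`|ζ(3) - p/q| ≥ c / min (max Q (e^(5y/3)) ^ 4.68) (max Q (e^(1.4 y)) ^ 4.96)`, `Q = q / gcd (q, (primorial y)^3)`,
for all integers `p`, `q ≥ 1`, `y ≥ 0`. By the prime number theorem (see `Pool.Agent.TH896.Z3R.expo`) it follows
that for `0 < θ ≤ 3/14` and `μ > 4.68 (1 - 3θ)` one has `|ζ(3) - p/q| > q^(-μ)` for all large `q` divisible by the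
cubes of all primes `≤ θ log q`. -/
theorem result : ∃ c : ℝ, 0 < c ∧ ∀ (p : ℤ) (q y : ℕ), 0 < q →
    c / min ((max ((q : ℝ) / ((Nat.gcd q (primorial y ^ 3) : ℕ) : ℝ)) (Real.exp (5 / 3 * y))) ^ (4.68 : ℝ))
        ((max ((q : ℝ) / ((Nat.gcd q (primorial y ^ 3) : ℕ) : ℝ)) (Real.exp (1.4 * y))) ^ (4.96 : ℝ)) ≤
      |(∑' n : ℕ, 1 / ((n : ℝ) + 1) ^ 3) - (p : ℝ) / q| := by
  have e1 : (4.68 : ℝ) = 468 / 100 := by norm_num
  have e2 : (4.96 : ℝ) = 496 / 100 := by norm_num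
  have e3 : (1.4 : ℝ) = 14 / 10 := by norm_num
  rw [e1, e2, e3]
  obtain ⟨c₁, hc₁, h₁⟩ := Pool.Agent.TH896.Z3R.M40
  obtain ⟨c₂, hc₂, h₂⟩ := Pool.Agent.TH896.Z3R.M45
  refine ⟨min c₁ c₂, lt_min hc₁ hc₂, fun p q y hq => ?_⟩
  have g₁ := h₁ p q y hq
  have g₂ := h₂ p q y hq
  have p₁ : 0 < Pool.Agent.TH896.Z3R.M (5 / 3) y q :=
    lt_of_lt_of_le one_pos (Pool.Agent.TH896.Z3R.M_ge_one (by norm_num) y q)
  have p₂ : 0 < Pool.Agent.TH896.Z3R.M (14 / 10) y q :=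
    lt_of_lt_of_le one_pos (Pool.Agent.TH896.Z3R.M_ge_one (by norm_num) y q)
  rcases min_choice (Pool.Agent.TH896.Z3R.M (5 / 3) y q ^ ((468 : ℝ) / 100))
    (Pool.Agent.TH896.Z3R.M (14 / 10) y q ^ ((496 : ℝ) / 100)) with h | h
  · calc _ = min c₁ c₂ / min (Pool.Agent.TH896.Z3R.M (5 / 3) y q ^ ((468 : ℝ) / 100))
          (Pool.Agent.TH896.Z3R.M (14 / 10) y q ^ ((496 : ℝ) / 100)) := rfl
      _ = min c₁ c₂ / Pool.Agent.TH896.Z3R.M (5 / 3) y q ^ ((468 : ℝ) / 100) := by rw [h]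
      _ ≤ c₁ / Pool.Agent.TH896.Z3R.M (5 / 3) y q ^ ((468 : ℝ) / 100) :=
          div_le_div_of_nonneg_right (min_le_left _ _) (Real.rpow_pos_of_pos p₁ _).le
      _ ≤ _ := g₁
  · calc _ = min c₁ c₂ / min (Pool.Agent.TH896.Z3R.M (5 / 3) y q ^ ((468 : ℝ) / 100))
          (Pool.Agent.TH896.Z3R.M (14 / 10) y q ^ ((496 : ℝ) / 100)) := rfl
      _ = min c₁ c₂ / Pool.Agent.TH896.Z3R.M (14 / 10) y q ^ ((496 : ℝ) / 100) := by rw [h]
      _ ≤ c₂ / Pool.Agent.TH896.Z3R.M (14 / 10) y q ^ ((496 : ℝ) / 100) :=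
          div_le_div_of_nonneg_right (min_le_right _ _) (Real.rpow_pos_of_pos p₂ _).le
      _ ≤ _ := g₂

end Pool.Agent.Results.MP_48b3e2_nt.DivisibleDenominators
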