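import Pool.Agent.TH456.TM.Near

/-!
# Algebraic near relations between `π` and one arbitrary complex number

For polynomials `P ∈ ℤ[x][y]` and any complex number `t`, for instance `t = ζ(3)`.
-/

set_option autoImplicit false

namespace Pool.Agent.Results.MP_48b3e2_nt.NearRelationsWithPi

open Polynomial

/-- The height: the largest absolute value of a coefficient of `P ∈ ℤ[x][y]`. -/
noncomputable def height (P : ℤ[X][X]) : ℕ :=
  P.support.sup fun j => (P.coeff j).support.sup fun i => ((P.coeff j).coeff i).natAbs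

/-- The value `P(π, t)` of `P ∈ ℤ[x][y]` at `x = π`, `y = t`. -/
noncomputable def value (t : ℂ) (P : ℤ[X][X]) : ℂ :=
  ∑ j ∈ P.support, aeval (Real.pi : ℂ) (P.coeff j) * t ^ j

/-- The irreducible polynomials `P ∈ ℤ[x][y]` of degree at most `D` in `x` and in `y`, normalised
to have positive leading coefficient (one of `P`, `-P`). -/
def Irr (D : ℕ) : Set ℤ[X][X] :=
  {P | Irreducible P ∧ P.natDegree ≤ D ∧ (∀ j, (P.coeff j).natDegree ≤ D) ∧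
    0 < P.leadingCoeff.leadingCoeff}

/-- The near relations: the `P` in `Irr D` of height at most `Y` with
`|P(π, t)| ≤ (height P) ^ (-w)`. -/
def Near (t : ℂ) (D : ℕ) (w Y : ℝ) : Set ℤ[X][X] :=
  {P | P ∈ Irr D ∧ ‖value t P‖ ≤ (height P : ℝ) ^ (-w) ∧ (height P : ℝ) ≤ Y}

lemma value_eq (t : ℂ) (P : ℤ[X][X]) : value t P = Pool.Agent.TH456.TM.vl (Real.pi : ℂ) t P := by
  unfold value Pool.Agent.TH456.TM.vl
  rw [eval_map, eval₂_eq_sum, Polynomial.sum_def]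
  rfl

/-- **Algebraic near relations between `π` and `t`.** -/
theorem result (D : ℕ) (hD : 1 ≤ D) : ∃ κ : ℝ, 0 < κ ∧
    (∀ T : ℝ, ∃ c : ℝ, 0 < c ∧ ∀ t : ℂ, ‖t‖ ≤ T →
      ∀ P ∈ Irr D, ∀ Q ∈ Irr D, P ≠ Q → ∀ H : ℝ, (height P : ℝ) ≤ H → (height Q : ℝ) ≤ H →
        c * H ^ (-κ) ≤ max ‖value t P‖ ‖value t Q‖) ∧
    (∀ (t : ℂ) (w ρ : ℝ), 1 < ρ → ρ < w / κ → ∃ C : ℝ, ∀ Y : ℝ, 3 ≤ Y →
      (Near t D w Y).Finite ∧
        ((Near t D w Y).ncard : ℝ) ≤ Real.log (Real.log Y) / Real.log ρ + C) := by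
  simp only [value_eq]
  have hIR : Irr D = Pool.Agent.TH456.TM.IR D := rfl
  obtain ⟨κ, hκ, h⟩ := Pool.Agent.TH456.TM.core _ Pool.Agent.TH456.TM.measT_pi D hD
  refine ⟨κ, hκ, h, fun t w ρ hρ hρw => ?_⟩
  obtain ⟨C, hC⟩ := Pool.Agent.TH456.TM.sparse_alg (Real.pi : ℂ) D κ hκ h t w ρ hρ hρw
  have hset : ∀ Y : ℝ, Near t D w Y = {P ∈ {P : ℤ[X][X] | P ∈ Pool.Agent.TH456.TM.IR D ∧
      ‖Pool.Agent.TH456.TM.vl (Real.pi : ℂ) t P‖ ≤ (Pool.Agent.TH456.TM.hgt P : ℝ) ^ (-w)} |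
      (Pool.Agent.TH456.TM.hgt P : ℝ) ≤ Y} := by
    intro Y
    ext P
    unfold Near
    rw [Set.mem_ofPred_eq, value_eq]
    constructor
    · rintro ⟨h1, h2, h3⟩
      exact ⟨⟨h1, h2⟩, h3⟩
    · rintro ⟨⟨h1, h2⟩, h3⟩
      exact ⟨h1, h2, h3⟩
  refine ⟨C, fun Y hY => ?_⟩
  rw [hset]
  exact hC Y hY

end Pool.Agent.Results.MP_48b3e2_nt.NearRelationsWithPi
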