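import Pool.Agent.TH647.NR.Zeta34
import Pool.Agent.TH817.Z3.Z
import Pool.Agent.TH250.Z3.Arch

/-!
# The span of the near relations between `1`, `ζ(3)` and arbitrary numbers

For all real numbers `t_1, …, t_r` (for instance `ζ(3) ^ 2, …, ζ(3) ^ (r + 1)`) the integer vectors
of norm at most `X` on which the linear form `a + b ζ(3) + e_1 t_1 + … + e_r t_r` is smaller than
`c X ^ (-(4.68 r + 3.68))` span a space of dimension at most `r`, at every scale `X`, with `c`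
independent of `t_1, …, t_r`; in particular the integer polynomials of degree at most `m` and height
at most `X` with `|P(ζ(3))| < c X ^ (-(4.68 m - 1))` span a space of dimension at most `m - 1`.
The same for `a + b ζ(3) + d π ^ 4 + e_1 t_1 + … + e_r t_r`.
-/

set_option autoImplicit false

namespace Pool.Agent.Results.MP_48b3e2_nt.SpanOfNearRelations

open Pool.Agent.TH647.NR

/-- the measure for `1, ζ(3)` -/
theorem meas : ∃ c : ℝ, 0 < c ∧ Pool.Agent.W472.AC.Meas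
    (![1, ∑' n : ℕ, 1 / ((n : ℝ) + 1) ^ 3] : Fin (1 + 1) → ℝ) (368 / 100) c := by
  obtain ⟨c, hc, h⟩ := Pool.Agent.TH817.Z3.Z_pre Pool.Agent.TH250.Z3.AM
  have h1 := meas_of_exp (∑' n : ℕ, 1 / ((n : ℝ) + 1) ^ 3) (468 / 100) (by norm_num) c hc
    (fun p q hq => h p q hq)
  refine ⟨min c 1, by positivity, ?_⟩
  convert h1 using 1
  norm_num

/-- the value of a polynomial of degree at most `m + 1` -/
theorem aeval_split (m : ℕ) (z : ℝ) (P : Polynomial ℤ) (h : P.natDegree ≤ m + 1) :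
    Polynomial.aeval z P = (P.coeff 0 : ℝ) + P.coeff 1 * z +
      ∑ j : Fin m, (P.coeff ((j : ℕ) + 2) : ℝ) * z ^ ((j : ℕ) + 2) := by
  have h1 : Polynomial.aeval z P = ∑ i ∈ Finset.range (m + 2), (P.coeff i : ℝ) * z ^ i := by
    rw [Polynomial.aeval_eq_sum_range' (show P.natDegree < m + 2 by omega)]
    exact Finset.sum_congr rfl fun i _ => by rw [zsmul_eq_mul]
  rw [h1, Finset.sum_range_succ', Finset.sum_range_succ', Finset.sum_range]
  have h2 : ∑ j : Fin m, (P.coeff ((j : ℕ) + 2) : ℝ) * z ^ ((j : ℕ) + 2) =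
      ∑ j : Fin m, (P.coeff ((j : ℕ) + 1 + 1) : ℝ) * z ^ ((j : ℕ) + 1 + 1) := rfl
  rw [h2, pow_zero, mul_one, zero_add, pow_one]
  ring

theorem result :
    (∀ r : ℕ, ∃ c : ℝ, 0 < c ∧ ∀ (t : Fin r → ℝ) (X : ℝ), 1 ≤ X →
      ∀ v : Fin (r + 1) → (Fin 2 → ℤ) × (Fin r → ℤ), LinearIndependent ℤ v →
        (∀ k, ‖v k‖ ≤ X) →
        ∃ k, c * X ^ (-((468 / 100) * (r : ℝ) + 368 / 100)) ≤
          |((v k).1 0 : ℝ) + (v k).1 1 * (∑' n : ℕ, 1 / ((n : ℝ) + 1) ^ 3) +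
            ∑ j, ((v k).2 j : ℝ) * t j|) ∧
    (∀ m : ℕ, ∃ c : ℝ, 0 < c ∧ ∀ X : ℝ, 1 ≤ X →
      ∀ P : Fin (m + 1) → Polynomial ℤ, LinearIndependent ℤ P → (∀ k, (P k).natDegree ≤ m + 1) →
        (∀ k i, |((P k).coeff i : ℝ)| ≤ X) →
        ∃ k, c * X ^ (-((468 / 100) * ((m : ℝ) + 1) - 1)) ≤
          |Polynomial.aeval (∑' n : ℕ, 1 / ((n : ℝ) + 1) ^ 3) (P k)|) ∧
    (∀ r : ℕ, ∃ c : ℝ, 0 < c ∧ ∀ (t : Fin r → ℝ) (X : ℝ), 1 ≤ X →
      ∀ v : Fin (r + 1) → (Fin 3 → ℤ) × (Fin r → ℤ), LinearIndependent ℤ v →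
        (∀ k, ‖v k‖ ≤ X) →
        ∃ k, c * X ^ (-(2401 * (r : ℝ) + 2400)) ≤
          |((v k).1 0 : ℝ) + (v k).1 1 * (∑' n : ℕ, 1 / ((n : ℝ) + 1) ^ 3) +
            (v k).1 2 * Real.pi ^ 4 + ∑ j, ((v k).2 j : ℝ) * t j|) := by
  have part1 : ∀ r : ℕ, ∃ c : ℝ, 0 < c ∧ ∀ (t : Fin r → ℝ) (X : ℝ), 1 ≤ X →
      ∀ v : Fin (r + 1) → (Fin 2 → ℤ) × (Fin r → ℤ), LinearIndependent ℤ v →
        (∀ k, ‖v k‖ ≤ X) →
        ∃ k, c * X ^ (-((468 / 100) * (r : ℝ) + 368 / 100)) ≤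
          |((v k).1 0 : ℝ) + (v k).1 1 * (∑' n : ℕ, 1 / ((n : ℝ) + 1) ^ 3) +
            ∑ j, ((v k).2 j : ℝ) * t j| := by
    obtain ⟨c, hc, h⟩ := meas
    intro r
    obtain ⟨c', hc', h'⟩ := rank_bound _ (368 / 100) c hc h r
    refine ⟨c', hc', fun t X hX v hv hvX => ?_⟩
    obtain ⟨k, hk⟩ := h' t X hX v hv hvX
    refine ⟨k, ?_⟩
    have e1 : linr (![1, ∑' n : ℕ, 1 / ((n : ℝ) + 1) ^ 3] : Fin (1 + 1) → ℝ) t (v k) =
        ((v k).1 0 : ℝ) + (v k).1 1 * (∑' n : ℕ, 1 / ((n : ℝ) + 1) ^ 3) +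
            ∑ j, ((v k).2 j : ℝ) * t j := by
      unfold linr
      rw [Fin.sum_univ_two]
      simp
    rw [e1] at hk
    refine le_trans (le_of_eq ?_) hk
    congr 2
    ring
  refine ⟨part1, fun m => ?_, fun r => ?_⟩
  · obtain ⟨c, hc, h⟩ := part1 m
    refine ⟨c, hc, fun X hX P hP hdeg hX' => ?_⟩
    obtain ⟨z, hz⟩ : ∃ z : ℝ, z = ∑' n : ℕ, 1 / ((n : ℝ) + 1) ^ 3 := ⟨_, rfl⟩
    rw [← hz] at h ⊢
    obtain ⟨v, hv⟩ : ∃ v : Fin (m + 1) → (Fin 2 → ℤ) × (Fin m → ℤ), v = fun k =>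
      ((fun i : Fin 2 => (P k).coeff (i : ℕ)), (fun j : Fin m => (P k).coeff ((j : ℕ) + 2))) :=
      ⟨_, rfl⟩
    have hv1 : ∀ k i, (v k).1 i = (P k).coeff (i : ℕ) := fun k i => by rw [hv]
    have hv2 : ∀ k j, (v k).2 j = (P k).coeff ((j : ℕ) + 2) := fun k j => by rw [hv]
    have hvl : LinearIndependent ℤ v := by
      rw [Fintype.linearIndependent_iff] at hP ⊢
      intro g hg
      refine hP g ?_
      have hcoe : ∀ i : ℕ, ∑ k, g k * (P k).coeff i = 0 := by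
        intro i
        rcases lt_or_ge i 2 with h2 | h2
        · have h3 := congrFun (congrArg Prod.fst hg) ⟨i, h2⟩
          rw [Prod.fst_sum, Finset.sum_apply] at h3
          simp only [Prod.smul_fst, Pi.smul_apply, smul_eq_mul, hv1, Prod.fst_zero,
            Pi.zero_apply] at h3
          exact h3
        · rcases lt_or_ge i (m + 2) with h4 | h4
          · have h3 := congrFun (congrArg Prod.snd hg) ⟨i - 2, by omega⟩
            rw [Prod.snd_sum, Finset.sum_apply] at h3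
            have h5 : i - 2 + 2 = i := by omega
            simp only [Prod.smul_snd, Pi.smul_apply, smul_eq_mul, hv2, h5, Prod.snd_zero,
              Pi.zero_apply] at h3
            exact h3
          · refine Finset.sum_eq_zero fun k _ => ?_
            rw [Polynomial.coeff_eq_zero_of_natDegree_lt (by have := hdeg k; omega), mul_zero]
      ext i
      simpa [Polynomial.finsetSum_coeff] using hcoe i
    have hvn : ∀ k, ‖v k‖ ≤ X := by
      intro k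
      have hX0 : 0 ≤ X := by linarith
      have hcast : ∀ n : ℤ, ‖n‖ = |(n : ℝ)| := fun n => rfl
      rw [Prod.norm_def, max_le_iff]
      refine ⟨(pi_norm_le_iff_of_nonneg hX0).2 fun i => ?_,
        (pi_norm_le_iff_of_nonneg hX0).2 fun i => ?_⟩
      · rw [hv1, hcast]
        exact hX' k _
      · rw [hv2, hcast]
        exact hX' k _
    obtain ⟨k, hk⟩ := h (fun j => z ^ ((j : ℕ) + 2)) X hX v hvl hvn
    refine ⟨k, ?_⟩
    have e1 : Polynomial.aeval z (P k) = ((v k).1 0 : ℝ) + (v k).1 1 * z +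
        ∑ j, ((v k).2 j : ℝ) * z ^ ((j : ℕ) + 2) := by
      simp only [aeval_split m z (P k) (hdeg k), hv1, hv2]
      rfl
    rw [e1]
    refine le_trans (le_of_eq ?_) hk
    congr 2
    ring
  · obtain ⟨c, hc, h⟩ := meas_zeta_pi4
    obtain ⟨c', hc', h'⟩ := rank_bound _ 2400 c hc h r
    refine ⟨c', hc', fun t X hX v hv hvX => ?_⟩
    obtain ⟨k, hk⟩ := h' t X hX v hv hvX
    refine ⟨k, ?_⟩
    have e1 : linr (![1, ∑' n : ℕ, 1 / ((n : ℝ) + 1) ^ 3, Real.pi ^ 4] : Fin (2 + 1) → ℝ) t (v k) =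
        ((v k).1 0 : ℝ) + (v k).1 1 * (∑' n : ℕ, 1 / ((n : ℝ) + 1) ^ 3) +
            (v k).1 2 * Real.pi ^ 4 + ∑ j, ((v k).2 j : ℝ) * t j := by
      unfold linr
      rw [Fin.sum_univ_three]
      simp
    rw [e1] at hk
    refine le_trans (le_of_eq ?_) hk
    congr 2
    ring

end Pool.Agent.Results.MP_48b3e2_nt.SpanOfNearRelations
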