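import Pool.Agent.TH817.Z3.Z
import Pool.Agent.TH250.Z3.Arch

/-!
# Irrationality exponent of `ζ(3)`: at most `4.68`

Hankel determinants of size `2n` of the linear forms `-∑_{t ≥ -3n} (R Q)'(t)` in `1, ζ(3)`,
`R(t) = ((9n/2)!)² / ((5n/2)!)² · ∏_{n/2 < j ≤ 3n} (t+j) · ∏_{n < j ≤ 7n/2} (t+j) /
(∏_{7n/2 < k ≤ 8n} (t+k) · ∏_{4n < k ≤ 17n/2} (t+k))` (integer parts of `n/2`, `5n/2`, `7n/2`, `9n/2`, `17n/2`),
with `ζ(3)` replaced by a rational number `p/q`; comparison polynomials that also vanish at some of the poles;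
refined `p`-adic bounds for the classes with a simple pole; non-vanishing for all `p/q` at the primes
`n = 137 (mod 340)`.
-/

set_option autoImplicit false

namespace Pool.Agent.Results.MP_48b3e2_nt.ZetaThreeExponentC

/-- The irrationality exponent of `ζ(3) = ∑ 1/(n+1)^3` is at most `4.68`: there is `c > 0` with
`|ζ(3) - p/q| ≥ c / q^4.68` for all integers `p` and `q > 0`. -/
theorem result : ∃ c : ℝ, 0 < c ∧ ∀ (p : ℤ) (q : ℕ), 0 < q →
    c / (q : ℝ) ^ ((468 : ℝ) / 100) ≤ |(∑' n : ℕ, 1 / ((n : ℝ) + 1) ^ 3) - (p : ℝ) / q| :=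
  Pool.Agent.TH817.Z3.Z_pre Pool.Agent.TH250.Z3.AM

end Pool.Agent.Results.MP_48b3e2_nt.ZetaThreeExponentC
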